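import Pool.Agent.H67.TC.Tile

/-!
# Tilings of the unit cube by cubes of two given sizes (MP_01ad5f_co): definition
-/

set_option autoImplicit false

namespace Pool.Agent.H43.TT

open Pool.H67.TC

/-- The unit cube `[0, 1]³` is tiled by exactly `n` cubes, each of side length `s₁` or `s₂` (both in `(0, 1)`): the `n` closed
cubes have union `[0, 1]³` and pairwise disjoint interiors. -/
def Tiles (n : ℕ) (s₁ s₂ : ℝ) : Prop :=
  0 < s₁ ∧ s₁ < 1 ∧ 0 < s₂ ∧ s₂ < 1 ∧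
    ∃ (a : Fin n → Fin 3 → ℝ) (s : Fin n → ℝ),
      (∀ i, s i = s₁ ∨ s i = s₂) ∧
      (⋃ i, cube3 (a i) (s i)) = cube3 0 1 ∧
      ∀ i j, i ≠ j → Disjoint (interior (cube3 (a i) (s i))) (interior (cube3 (a j) (s j)))

theorem twoSize_iff {n : ℕ} : TwoSizeTiling n ↔ ∃ s₁ s₂, Tiles n s₁ s₂ := Iff.rfl

end Pool.Agent.H43.TT
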