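import Pool.Agent.H43.TT.Def
import Pool.Agent.H67.TC.Tile

/-!
# The tilings with a given quotient of the side lengths (after `Pool/Agent/H67/TC/Tile.lean` and `Fit.lean` by helper67, where
the quotient is `l / (l + 1)`)
-/

set_option autoImplicit false

namespace Pool.Agent.H43.TT

open Finset Pool.H67.TC

/-- from a half-open partition to a tiling -/
theorem tiles_of_partition {ι : Type} [Fintype ι] (n : ℕ) (hn : Fintype.card ι = n)
    (s₁ s₂ : ℝ) (h1 : 0 < s₁) (h1' : s₁ < 1) (h2 : 0 < s₂) (h2' : s₂ < 1)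
    (a : ι → Fin 3 → ℝ) (s : ι → ℝ) (hs : ∀ i, s i = s₁ ∨ s i = s₂)
    (hin : ∀ i k, 0 ≤ a i k ∧ a i k + s i ≤ 1)
    (hex : ∀ x ∈ hc 0 1, ∃ i, x ∈ hc (a i) (s i))
    (huni : ∀ x ∈ hc 0 1, ∀ i j, x ∈ hc (a i) (s i) → x ∈ hc (a j) (s j) → i = j) :
    Tiles n s₁ s₂ := by
  classical
  have e : Fin n ≃ ι := (Fintype.equivFinOfCardEq hn).symm
  have hsub : ∀ i, hc (a i) (s i) ⊆ hc 0 1 := by
    intro i x hx k
    have h3 := hx k
    have h4 := hin i k
    constructor
    · simp only [Pi.zero_apply]; linarith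
    · simp only [Pi.zero_apply]; linarith
  refine ⟨h1, h1', h2, h2', fun i => a (e i), fun i => s (e i), fun i => hs _, ?_, ?_⟩
  · apply Set.Subset.antisymm
    · intro x hx
      obtain ⟨i, hi⟩ := Set.mem_iUnion.1 hx
      intro k
      have h3 := hi k
      have h4 := hin (e i) k
      simp only [Pi.zero_apply]
      constructor <;> linarith
    · have hcl : IsClosed (⋃ i, cube3 (a (e i)) (s (e i))) :=
        isClosed_iUnion_of_finite fun i => cube3_closed _ _
      have hsub2 : hc 0 1 ⊆ ⋃ i, cube3 (a (e i)) (s (e i)) := by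
        intro x hx
        obtain ⟨i, hi⟩ := hex x hx
        rw [Set.mem_iUnion]
        refine ⟨e.symm i, ?_⟩
        rw [Equiv.apply_symm_apply]
        intro k
        exact ⟨(hi k).1, (hi k).2.le⟩
      have h5 : closure (hc 0 1) ⊆ ⋃ i, cube3 (a (e i)) (s (e i)) :=
        closure_minimal hsub2 hcl
      refine Set.Subset.trans ?_ h5
      rw [hc_eq, closure_pi_set, cube3_eq]
      intro x hx k _
      have h6 := hx k (Set.mem_univ k)
      simp only [Pi.zero_apply, zero_add] at h6 ⊢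
      rw [closure_Ico (by norm_num)]
      exact h6
  · intro i j hij
    rw [Set.disjoint_left]
    intro x hxi hxj
    have h3 := interior_sub _ _ hxi
    have h4 := interior_sub _ _ hxj
    exact hij (e.injective (huni x (hsub _ h3) _ _ h3 h4))

theorem tile (N K l D x n : ℕ) (hl : 0 < l) (hlK : l < K) (hD : K ^ 3 = l ^ 3 + D) (hN : K < N)
    (hx : x ≤ (N / K) ^ 3) (hn : n + x * D = N ^ 3) :
    Tiles n (1 / (N : ℝ)) (1 / (l * N / K : ℝ)) := by
  classical
  set m := N / K with hm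
  -- choose x blocks
  have hcardP : (Fintype.piFinset (fun _ : Fin 3 => range m)).card = m ^ 3 := by
    rw [Fintype.card_piFinset]; simp
  obtain ⟨B, hBs, hBc⟩ := Finset.exists_subset_card_eq (s := Fintype.piFinset (fun _ : Fin 3 => range m))
    (n := x) (by rw [hcardP]; exact hx)
  have hB : ∀ b ∈ B, ∀ i, b i < m := fun b hb i =>
    Finset.mem_range.1 (Fintype.mem_piFinset.1 (hBs hb) i)
  set U := (Fintype.piFinset (fun _ : Fin 3 => range N)).filter
      (fun u => ¬ (fun i => u i / K) ∈ B) with hU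
  set V := (Fintype.piFinset (fun _ : Fin 3 => range (l * m))).filter
      (fun v => (fun i => v i / l) ∈ B) with hV
  have hVc : V.card = x * l ^ 3 := by
    rw [hV, card_cells l m (l * m) hl (le_refl _) B hB, hBc]
  have hUc : U.card + x * K ^ 3 = N ^ 3 := by
    have h1 := card_cells K m N (by omega) (by rw [hm]; exact Nat.mul_div_le _ _) B hB
    have h2 := Finset.card_filter_add_card_filter_not (s := Fintype.piFinset (fun _ : Fin 3 => range N))
      (fun u => (fun i => u i / K) ∈ B)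
    rw [h1, hBc, Fintype.card_piFinset] at h2
    simp only [card_range, prod_const, card_univ, Fintype.card_fin] at h2
    rw [← h2, hU]; ring
  have hNpos : (0 : ℝ) < N := by exact_mod_cast (by omega : 0 < N)
  have hKpos : (0 : ℝ) < K := by exact_mod_cast (by omega : 0 < K)
  have hN1 : (1 : ℝ) < N := by exact_mod_cast (by omega : 1 < N)
  have hlpos : (0 : ℝ) < l := by exact_mod_cast hl
  have hl1 : (1 : ℝ) ≤ l := by exact_mod_cast hl
  have hN3 : (K : ℝ) < N := by exact_mod_cast hN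
  have hcard : Fintype.card (U ⊕ V) = n := by
    rw [Fintype.card_sum, Fintype.card_coe, Fintype.card_coe, hVc]
    have e1 : x * K ^ 3 = x * l ^ 3 + x * D := by rw [hD]; ring
    omega
  -- scale factors
  set c : ℝ := l * N / K with hc'
  have hcpos : 0 < c := by positivity
  have key1 : ∀ (y : ℝ) (u : ℕ), 0 ≤ y → ((u : ℝ) / N ≤ y ∧ y < (u : ℝ) / N + 1 / N ↔ ⌊N * y⌋₊ = u) := by
    intro y u hy
    rw [Nat.floor_eq_iff (by positivity)]
    rw [← add_div, div_le_iff₀ hNpos, lt_div_iff₀ hNpos, mul_comm y]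
  have key2 : ∀ (y : ℝ) (v : ℕ), 0 ≤ y → ((v : ℝ) / c ≤ y ∧ y < (v : ℝ) / c + 1 / c ↔ ⌊c * y⌋₊ = v) := by
    intro y v hy
    rw [Nat.floor_eq_iff (by positivity)]
    rw [← add_div, div_le_iff₀ hcpos, lt_div_iff₀ hcpos, mul_comm y]
  have key3 : ∀ y : ℝ, ⌊N * y⌋₊ / K = ⌊c * y⌋₊ / l := by
    intro y
    have h1 := floor_div_eq (N * y) K
    have h2 := floor_div_eq (c * y) l
    rw [← h1, ← h2]
    congr 1
    rw [hc']
    field_simp
  apply tiles_of_partition (ι := U ⊕ V) n hcard (1 / N) (1 / c) (by positivity)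
    (by rw [div_lt_one hNpos]; linarith) (by positivity)
    (by
      rw [div_lt_one hcpos, hc', lt_div_iff₀ (by positivity)]
      nlinarith)
    (fun i => Sum.elim (fun u k => (u.1 k : ℝ) / N) (fun v k => (v.1 k : ℝ) / c) i)
    (fun i => Sum.elim (fun _ => 1 / (N : ℝ)) (fun _ => 1 / c) i)
  · rintro (i | i)
    · left; rfl
    · right; rfl
  · rintro (⟨u, hu⟩ | ⟨v, hv⟩) k
    · simp only [Sum.elim_inl]
      have h1 := Fintype.mem_piFinset.1 (Finset.mem_filter.1 hu).1 k
      rw [Finset.mem_range] at h1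
      refine ⟨by positivity, ?_⟩
      rw [← add_div, div_le_one hNpos]
      exact_mod_cast h1
    · simp only [Sum.elim_inr]
      have h1 := Fintype.mem_piFinset.1 (Finset.mem_filter.1 hv).1 k
      rw [Finset.mem_range] at h1
      refine ⟨by positivity, ?_⟩
      rw [← add_div, div_le_one hcpos, hc', le_div_iff₀ (by positivity)]
      have h2 : v k + 1 ≤ l * m := h1
      have h3 : K * m ≤ N := by rw [hm]; exact Nat.mul_div_le _ _
      have h4 : (v k + 1) * K ≤ l * N := by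
        calc (v k + 1) * K ≤ (l * m) * K := Nat.mul_le_mul_right _ h2
          _ = l * (K * m) := by ring
          _ ≤ l * N := Nat.mul_le_mul_left _ h3
      exact_mod_cast h4
  · intro y hy
    have hy0 : ∀ k, 0 ≤ y k := fun k => by have := (hy k).1; simpa using this
    have hy1 : ∀ k, y k < 1 := fun k => by have := (hy k).2; simpa using this
    by_cases hb : (fun k => ⌊c * y k⌋₊ / l) ∈ B
    · -- fine cube
      have hv : (fun k => ⌊c * y k⌋₊) ∈ V := by
        rw [hV, Finset.mem_filter, Fintype.mem_piFinset]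
        refine ⟨fun k => ?_, hb⟩
        rw [Finset.mem_range]
        have h1 : ⌊c * y k⌋₊ / l < m := hB _ hb k
        have h2 := (Nat.div_lt_iff_lt_mul hl).1 h1
        rw [mul_comm l m]; exact h2
      refine ⟨Sum.inr ⟨_, hv⟩, fun k => ?_⟩
      simp only [Sum.elim_inr]
      exact (key2 (y k) _ (hy0 k)).2 rfl
    · have hu : (fun k => ⌊N * y k⌋₊) ∈ U := by
        rw [hU, Finset.mem_filter, Fintype.mem_piFinset]
        refine ⟨fun k => ?_, ?_⟩
        · rw [Finset.mem_range, Nat.floor_lt (mul_nonneg hNpos.le (hy0 k))]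
          have := hy1 k
          nlinarith
        · have : (fun k => ⌊N * y k⌋₊ / K) = fun k => ⌊c * y k⌋₊ / l := by
            funext k; exact key3 (y k)
          rw [this]; exact hb
      refine ⟨Sum.inl ⟨_, hu⟩, fun k => ?_⟩
      simp only [Sum.elim_inl]
      exact (key1 (y k) _ (hy0 k)).2 rfl
  · intro y hy
    have hy0 : ∀ k, 0 ≤ y k := fun k => by have := (hy k).1; simpa using this
    rintro (⟨u, hu⟩ | ⟨v, hv⟩) (⟨u', hu'⟩ | ⟨v', hv'⟩) h h'
    · congr 2
      funext k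
      have h1 : ⌊N * y k⌋₊ = u k := (key1 (y k) _ (hy0 k)).1 (h k)
      have h2 : ⌊N * y k⌋₊ = u' k := (key1 (y k) _ (hy0 k)).1 (h' k)
      rw [← h1, ← h2]
    · exfalso
      have h1 : ∀ k, ⌊N * y k⌋₊ = u k := fun k => (key1 (y k) _ (hy0 k)).1 (h k)
      have h2 : ∀ k, ⌊c * y k⌋₊ = v' k := fun k => (key2 (y k) _ (hy0 k)).1 (h' k)
      apply (Finset.mem_filter.1 hu).2
      have : (fun i => u i / K) = fun i => v' i / l := by
        funext k; rw [← h1, ← h2]; exact key3 (y k)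
      rw [this]
      exact (Finset.mem_filter.1 hv').2
    · exfalso
      have h1 : ∀ k, ⌊N * y k⌋₊ = u' k := fun k => (key1 (y k) _ (hy0 k)).1 (h' k)
      have h2 : ∀ k, ⌊c * y k⌋₊ = v k := fun k => (key2 (y k) _ (hy0 k)).1 (h k)
      apply (Finset.mem_filter.1 hu').2
      have : (fun i => u' i / K) = fun i => v i / l := by
        funext k; rw [← h1, ← h2]; exact key3 (y k)
      rw [this]
      exact (Finset.mem_filter.1 hv).2
    · congr 2
      funext k
      have h1 : ⌊c * y k⌋₊ = v k := (key2 (y k) _ (hy0 k)).1 (h k)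
      have h2 : ⌊c * y k⌋₊ = v' k := (key2 (y k) _ (hy0 k)).1 (h' k)
      rw [← h1, ← h2]

theorem fit (K l n : ℕ) (hl : 0 < l) (hlK : l < K) (hc : ∃ y : ℤ, ((K : ℤ) ^ 3 - l ^ 3) ∣ y ^ 3 - n)
    (hn : (48 * K ^ 3) ^ 3 ≤ n) : ∃ s₁ s₂ : ℝ, s₁ * K = s₂ * l ∧ Tiles n s₁ s₂ := by
  classical
  obtain ⟨y, hy⟩ := hc
  have hlt : l ^ 3 < K ^ 3 := Nat.pow_lt_pow_left hlK (by norm_num)
  obtain ⟨D, hD⟩ := Nat.exists_eq_add_of_lt hlt
  rw [add_assoc] at hD
  set D' := D + 1 with hD'
  clear_value D'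
  have hDpos : 0 < D' := by omega
  have hDk : D' ≤ K ^ 3 := by omega
  have hDe : (K : ℤ) ^ 3 - l ^ 3 = D' := by
    have : ((K ^ 3 : ℕ) : ℤ) = ((l ^ 3 + D' : ℕ) : ℤ) := by rw [hD]
    push_cast at this
    linarith
  rw [hDe] at hy
  have hex : ∃ M, n ≤ M ^ 3 := ⟨n, by
    rcases Nat.eq_zero_or_pos n with h | h
    · simp [h]
    · calc n = n ^ 1 := (pow_one n).symm
        _ ≤ n ^ 3 := Nat.pow_le_pow_right h (by norm_num)⟩
  set M := Nat.find hex with hM
  have hM1 : n ≤ M ^ 3 := Nat.find_spec hex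
  have hMk : 48 * K ^ 3 ≤ M := by
    by_contra h
    push Not at h
    have : M ^ 3 < (48 * K ^ 3) ^ 3 := Nat.pow_lt_pow_left h (by norm_num)
    omega
  have hk3 : 1 ≤ K ^ 3 := Nat.one_le_pow _ _ (by omega)
  have hMpos : 0 < M := by omega
  obtain ⟨M', hM'⟩ : ∃ M', M = M' + 1 := ⟨M - 1, by omega⟩
  have hM2 : M' ^ 3 < n := by
    have := Nat.find_min hex (m := M') (by omega)
    omega
  have hDI : (0 : ℤ) < D' := by exact_mod_cast hDpos
  set r := ((y - M) % D').toNat with hr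
  have hr0 : (0 : ℤ) ≤ (y - M) % D' := Int.emod_nonneg _ hDI.ne'
  have hr1 : (r : ℤ) = (y - M) % D' := Int.toNat_of_nonneg hr0
  have hr2 : r < D' := by
    have := Int.emod_lt_of_pos (y - M) hDI
    rw [← hr1] at this
    exact_mod_cast this
  set N := M + r with hN
  have hNy : (D' : ℤ) ∣ (N : ℤ) - y := by
    refine ⟨-((y - M) / D'), ?_⟩
    have := Int.emod_add_mul_ediv (y - M) D'
    rw [← hr1] at this
    rw [hN]
    push_cast
    linarith
  have hNn : (D' : ℤ) ∣ (N : ℤ) ^ 3 - n := by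
    have h1 := hNy.trans (sub_dvd_pow_sub_pow (N : ℤ) y 3)
    have : (N : ℤ) ^ 3 - n = ((N : ℤ) ^ 3 - y ^ 3) + (y ^ 3 - n) := by ring
    rw [this]
    exact dvd_add h1 hy
  have hnN : n ≤ N ^ 3 := hM1.trans (Nat.pow_le_pow_left (by omega) 3)
  have hNn' : D' ∣ N ^ 3 - n := by
    have h1 : ((N ^ 3 - n : ℕ) : ℤ) = (N : ℤ) ^ 3 - n := by
      rw [Nat.cast_sub hnN]; push_cast; rfl
    rw [← h1] at hNn
    exact_mod_cast hNn
  obtain ⟨x, hx⟩ := hNn'
  have hx' : n + x * D' = N ^ 3 := by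
    rw [mul_comm x D', ← hx]; omega
  have hNle : N ≤ M' + D' := by omega
  have hxb : x ≤ 3 * (M' + D') ^ 2 := by
    have h1 : N ^ 3 ≤ (M' + D') ^ 3 := Nat.pow_le_pow_left hNle 3
    have h2 : x * D' ≤ 3 * (M' + D') ^ 2 * D' := by
      have h3 : (M' + D') ^ 3 ≤ M' ^ 3 + 3 * (M' + D') ^ 2 * D' := by
        have : M' ^ 3 + 3 * (M' + D') ^ 2 * D' = (M' + D') ^ 3 + (3 * M' * D' ^ 2 + 2 * D' ^ 3) := by
          ring
        omega
      omega
    exact Nat.le_of_mul_le_mul_right h2 hDpos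
  set q := M / K with hq
  have hq1 : M < K * (q + 1) := by
    rw [hq]; exact Nat.lt_mul_div_succ M (by omega)
  have hq2 : 48 * K ^ 2 ≤ q := by
    rw [hq, Nat.le_div_iff_mul_le (by omega)]
    calc 48 * K ^ 2 * K = 48 * K ^ 3 := by ring
      _ ≤ M := hMk
  have hk2 : 1 ≤ K ^ 2 := Nat.one_le_pow _ _ (by omega)
  have hq3 : M ≤ 2 * K * q := by
    have : K * (q + 1) ≤ K * (2 * q) := Nat.mul_le_mul_left _ (by omega)
    have e : K * (2 * q) = 2 * K * q := by ring
    omega
  have hk23 : K ^ 2 ≤ K ^ 3 := Nat.pow_le_pow_right (by omega) (by norm_num)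
  have hMD : M' + D' ≤ 2 * M := by omega
  have hfin : x ≤ q ^ 3 := by
    calc x ≤ 3 * (M' + D') ^ 2 := hxb
      _ ≤ 3 * (2 * M) ^ 2 := Nat.mul_le_mul_left _ (Nat.pow_le_pow_left hMD 2)
      _ ≤ 3 * (2 * (2 * K * q)) ^ 2 := Nat.mul_le_mul_left _ (Nat.pow_le_pow_left (Nat.mul_le_mul_left _ hq3) 2)
      _ = (48 * K ^ 2) * q ^ 2 := by ring
      _ ≤ q * q ^ 2 := Nat.mul_le_mul_right _ hq2
      _ = q ^ 3 := by ring
  have hqN : q ≤ N / K := by
    rw [hq]; exact Nat.div_le_div_right (by omega)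
  have hKK : K ≤ K ^ 3 := Nat.le_self_pow (by norm_num) K
  have hKN : K < N := by omega
  have hNpos : (0 : ℝ) < N := by exact_mod_cast (by omega : 0 < N)
  have hKpos : (0 : ℝ) < K := by exact_mod_cast (by omega : 0 < K)
  have hlpos : (0 : ℝ) < l := by exact_mod_cast hl
  refine ⟨1 / (N : ℝ), 1 / (l * N / K : ℝ), ?_,
    tile N K l D' x n hl hlK hD hKN (hfin.trans (Nat.pow_le_pow_left hqN 3)) hx'⟩
  field_simp

end Pool.Agent.H43.TT
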