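import Pool.Agent.H43.TT.Res
import Pool.Agent.H43.TT.Suf

/-!
# Tilings with a given quotient of the side lengths: the exact condition for large `n`
-/

set_option autoImplicit false

namespace Pool.Agent.H43.TT

theorem same_pair {a b c d : ℕ} (h1 : Nat.Coprime a b) (h2 : Nat.Coprime c d) (hb : 0 < b) (hd : 0 < d)
    (h : a * d = c * b) : a = c ∧ b = d := by
  have h3 : a ∣ c := h1.dvd_of_dvd_mul_right (Dvd.intro d h)
  have h4 : c ∣ a := h2.dvd_of_dvd_mul_right (Dvd.intro b h.symm)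
  have h5 := Nat.dvd_antisymm h3 h4
  subst h5
  refine ⟨rfl, ?_⟩
  rcases Nat.eq_zero_or_pos a with h6 | h6
  · rw [h6] at h1 h2
    rw [Nat.coprime_zero_left] at h1 h2
    omega
  · exact (Nat.eq_of_mul_eq_mul_left h6 h).symm

theorem exact_ratio {a b n : ℕ} (hb : 1 ≤ b) (hab : b < a) (hc : Nat.Coprime a b)
    (hn : (48 * a ^ 3) ^ 3 ≤ n) (hcube : ∀ N : ℕ, n ≠ N ^ 3) :
    (∃ s₁ s₂ : ℝ, s₁ * a = s₂ * b ∧ Tiles n s₁ s₂) ↔ ∃ y : ℤ, ((a : ℤ) ^ 3 - b ^ 3) ∣ y ^ 3 - n := by
  constructor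
  · rintro ⟨s₁, s₂, hs, hT⟩
    rcases nec hT with ⟨N, hN⟩ | ⟨c, d, hd, hdc, -, hcd, hrel, hy⟩
    · exact absurd hN (hcube N)
    · have h1 : 0 < s₁ := hT.1
      have h2 : 0 < s₂ := hT.2.2.1
      have ha0 : (0 : ℝ) < a := by exact_mod_cast (by omega : 0 < a)
      have hb0 : (0 : ℝ) < b := by exact_mod_cast hb
      rcases hrel with h3 | h3
      · -- s₁ c = s₂ d, s₁ a = s₂ b
        have h4 : (a : ℝ) * d = c * b := by
          have h5 : s₁ * s₂ * ((a : ℝ) * d) = s₁ * s₂ * (c * b) := by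
            linear_combination (s₂ * d) * hs - (s₂ * b) * h3
          exact mul_left_cancel₀ (mul_pos h1 h2).ne' h5
        obtain ⟨h5, h6⟩ := same_pair hc hcd hb hd (by exact_mod_cast h4)
        rw [h5, h6]
        exact hy
      · -- s₂ c = s₁ d, s₁ a = s₂ b
        exfalso
        have h4 : s₁ < s₂ := by
          have hba : (b : ℝ) < a := by exact_mod_cast hab
          by_contra hcon
          push Not at hcon
          nlinarith
        have hdc' : (d : ℝ) < c := by exact_mod_cast hdc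
        have hd0 : (0 : ℝ) < d := by exact_mod_cast hd
        nlinarith
  · intro hy
    exact fit a b n hb hab hy hn

end Pool.Agent.H43.TT
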