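import Pool.Agent.H43.TT.Def

/-!
# Step functions with an almost everywhere constant sum
-/

set_option autoImplicit false

namespace Pool.Agent.H43.TT

open Pool.H67.TC MeasureTheory Set

/-- if a sum of step functions is constant on `(0, 1)` but for finitely many points, it is the sum of the integrals -/
theorem int1 {ι : Type*} [Fintype ι] (c p s : ι → ℝ) (hs : ∀ i, 0 ≤ s i) (h0 : ∀ i, 0 ≤ p i)
    (h1 : ∀ i, p i + s i ≤ 1) (C : ℝ) (F : Set ℝ) (hF : F.Finite)
    (h : ∀ x ∈ Ioo (0 : ℝ) 1, x ∉ F → ∑ i, (Ioo (p i) (p i + s i)).indicator (fun _ => c i) x = C) :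
    ∑ i, c i * s i = C := by
  have e1 : ∫ x in Ioo (0 : ℝ) 1, ∑ i, (Ioo (p i) (p i + s i)).indicator (fun _ => c i) x =
      ∫ _ in Ioo (0 : ℝ) 1, C := by
    refine setIntegral_congr_ae measurableSet_Ioo ?_
    have hF0 : volume F = 0 := hF.measure_zero _
    filter_upwards [measure_eq_zero_iff_ae_notMem.1 hF0] with x hx hx1
    exact h x hx1 hx
  have e2 : ∫ _ in Ioo (0 : ℝ) 1, C = C := by simp
  have e3 : ∀ i, ∫ x in Ioo (0 : ℝ) 1, (Ioo (p i) (p i + s i)).indicator (fun _ => c i) x =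
      c i * s i := by
    intro i
    rw [setIntegral_indicator measurableSet_Ioo,
      inter_eq_right.2 (Ioo_subset_Ioo (h0 i) (h1 i))]
    simp [hs i, mul_comm]
  rw [integral_finsetSum _ fun i _ => ?_, e2] at e1
  · rw [← e1]
    exact Finset.sum_congr rfl fun i _ => (e3 i).symm
  · refine Integrable.indicator ?_ measurableSet_Ioo
    exact integrable_const _

/-- the coordinates of the faces -/
def faces {n : ℕ} (a : Fin n → Fin 3 → ℝ) (s : Fin n → ℝ) (k : Fin 3) : Set ℝ :=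
  (⋃ i, {a i k}) ∪ ⋃ i, {a i k + s i}

theorem faces_finite {n : ℕ} (a : Fin n → Fin 3 → ℝ) (s : Fin n → ℝ) (k : Fin 3) :
    (faces a s k).Finite :=
  (finite_iUnion fun _ => finite_singleton _).union (finite_iUnion fun _ => finite_singleton _)

theorem interior_cube (a : Fin 3 → ℝ) (s : ℝ) :
    interior (cube3 a s) = {x | ∀ k, x k ∈ Ioo (a k) (a k + s)} := by
  rw [cube3_eq, interior_pi_set Set.finite_univ]
  ext x
  simp [interior_Icc]

variable {n : ℕ} {a : Fin n → Fin 3 → ℝ} {s : Fin n → ℝ}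

/-- exactly one tile covers a generic point -/
theorem one_tile (hU : (⋃ i, cube3 (a i) (s i)) = cube3 0 1)
    (hD : ∀ i j, i ≠ j → Disjoint (interior (cube3 (a i) (s i))) (interior (cube3 (a j) (s j))))
    {x : Fin 3 → ℝ} (hx : ∀ k, x k ∈ Ioo (0 : ℝ) 1) (hg : ∀ k, x k ∉ faces a s k) :
    ∃ i, (∀ k, x k ∈ Ioo (a i k) (a i k + s i)) ∧ ∀ j, (∀ k, x k ∈ Ioo (a j k) (a j k + s j)) → j = i := by
  have h1 : x ∈ ⋃ i, cube3 (a i) (s i) := by
    rw [hU]
    intro k
    simp only [Pi.zero_apply, zero_add]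
    exact ⟨(hx k).1.le, (hx k).2.le⟩
  obtain ⟨i, hi⟩ := mem_iUnion.1 h1
  have h2 : ∀ k, x k ∈ Ioo (a i k) (a i k + s i) := by
    intro k
    have h3 := hg k
    unfold faces at h3
    simp only [mem_union, mem_iUnion, mem_singleton_iff, not_or, not_exists] at h3
    exact ⟨lt_of_le_of_ne (hi k).1 (Ne.symm (h3.1 i)), lt_of_le_of_ne (hi k).2 (h3.2 i)⟩
  refine ⟨i, h2, fun j hj => ?_⟩
  by_contra hji
  have h4 := hD j i hji
  rw [interior_cube, interior_cube, disjoint_left] at h4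
  exact h4 hj h2

theorem inside (hs : ∀ i, 0 < s i) (hU : (⋃ i, cube3 (a i) (s i)) = cube3 0 1) (i : Fin n) (k : Fin 3) :
    0 ≤ a i k ∧ a i k + s i ≤ 1 := by
  have h1 : ∀ x ∈ cube3 (a i) (s i), x ∈ cube3 0 1 := fun x hx => by
    rw [← hU]
    exact mem_iUnion.2 ⟨i, hx⟩
  have h2 := h1 (a i) fun k => ⟨le_rfl, by linarith [hs i]⟩
  have h3 := h1 (fun k => a i k + s i) fun k => ⟨by linarith [hs i], le_rfl⟩
  have h4 := h2 k
  have h5 := h3 k
  simp only [Pi.zero_apply, zero_add] at h4 h5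
  exact ⟨h4.1, h5.2⟩

end Pool.Agent.H43.TT
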