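import Pool.Agent.H43.TT.Int

/-!
# The two side lengths have a rational quotient `b / a`, and the number of tiles is a cube modulo `a³ - b³`
-/

set_option autoImplicit false

namespace Pool.Agent.H43.TT

open Pool.H67.TC MeasureTheory Set

/-- indicator of the open interval -/
noncomputable def J (p s x : ℝ) : ℝ := (Ioo p (p + s)).indicator (fun _ => 1) x

theorem J_01 (p s x : ℝ) : J p s x = 0 ∨ J p s x = 1 := by
  unfold J
  by_cases h : x ∈ Ioo p (p + s)
  · right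
    rw [indicator_of_mem h]
  · left
    rw [indicator_of_notMem h]

theorem int2 {n : ℕ} (c p s : Fin n → ℝ) (hs : ∀ i, 0 ≤ s i) (h0 : ∀ i, 0 ≤ p i ∧ p i + s i ≤ 1)
    (C : ℝ) (F : Set ℝ) (hF : F.Finite)
    (h : ∀ x ∈ Ioo (0 : ℝ) 1, x ∉ F → ∑ i, c i * J (p i) (s i) x = C) :
    ∑ i, c i * s i = C := by
  refine int1 c p s hs (fun i => (h0 i).1) (fun i => (h0 i).2) C F hF fun x hx hxF => ?_
  rw [← h x hx hxF]
  refine Finset.sum_congr rfl fun i _ => ?_
  unfold J
  by_cases h : x ∈ Ioo (p i) (p i + s i)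
  · rw [indicator_of_mem h, indicator_of_mem h, mul_one]
  · rw [indicator_of_notMem h, indicator_of_notMem h, mul_zero]

theorem natsum {n : ℕ} (c : Fin n → ℝ) (hc : ∀ i, c i = 0 ∨ c i = 1) : ∃ m : ℕ, ∑ i, c i = m := by
  classical
  refine ⟨(Finset.univ.filter fun i => c i = 1).card, ?_⟩
  rw [Finset.card_filter]
  push_cast
  refine Finset.sum_congr rfl fun i _ => ?_
  rcases hc i with h | h
  · rw [h, if_neg (by norm_num)]
  · rw [h, if_pos rfl]

variable {n : ℕ} {A : Fin n → Fin 3 → ℝ} {s : Fin n → ℝ}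

theorem L0 (hU : (⋃ i, cube3 (A i) (s i)) = cube3 0 1)
    (hD : ∀ i j, i ≠ j → Disjoint (interior (cube3 (A i) (s i))) (interior (cube3 (A j) (s j))))
    {x y z : ℝ} (hx : x ∈ Ioo (0 : ℝ) 1) (hy : y ∈ Ioo (0 : ℝ) 1) (hz : z ∈ Ioo (0 : ℝ) 1)
    (gx : x ∉ faces A s 0) (gy : y ∉ faces A s 1) (gz : z ∉ faces A s 2) :
    ∑ i, J (A i 1) (s i) y * J (A i 2) (s i) z * J (A i 0) (s i) x = 1 := by
  obtain ⟨i, h1, h2⟩ := one_tile hU hD (x := ![x, y, z])
    (by
      intro k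
      fin_cases k
      · exact hx
      · exact hy
      · exact hz)
    (by
      intro k
      fin_cases k
      · exact gx
      · exact gy
      · exact gz)
  rw [Finset.sum_eq_single i]
  · have e0 := h1 0
    have e1 := h1 1
    have e2 := h1 2
    simp only [Matrix.cons_val_zero, Matrix.cons_val_one, Matrix.cons_val_two, Matrix.tail_cons,
      Matrix.head_cons, Matrix.cons_val] at e0 e1 e2
    unfold J
    rw [indicator_of_mem e0, indicator_of_mem e1, indicator_of_mem e2]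
    norm_num
  · intro j _ hji
    by_contra hne
    refine hji (h2 j fun k => ?_)
    have m0 : x ∈ Ioo (A j 0) (A j 0 + s j) := by
      by_contra h
      refine hne ?_
      unfold J
      rw [indicator_of_notMem h, mul_zero]
    have m1 : y ∈ Ioo (A j 1) (A j 1 + s j) := by
      by_contra h
      refine hne ?_
      unfold J
      rw [indicator_of_notMem h, zero_mul, zero_mul]
    have m2 : z ∈ Ioo (A j 2) (A j 2 + s j) := by
      by_contra h
      refine hne ?_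
      unfold J
      rw [indicator_of_notMem h, mul_zero, zero_mul]
    fin_cases k
    · exact m0
    · exact m1
    · exact m2
  · intro h
    exact absurd (Finset.mem_univ i) h

theorem L1 (hs : ∀ i, 0 < s i) (hU : (⋃ i, cube3 (A i) (s i)) = cube3 0 1)
    (hD : ∀ i j, i ≠ j → Disjoint (interior (cube3 (A i) (s i))) (interior (cube3 (A j) (s j))))
    {y z : ℝ} (hy : y ∈ Ioo (0 : ℝ) 1) (hz : z ∈ Ioo (0 : ℝ) 1)
    (gy : y ∉ faces A s 1) (gz : z ∉ faces A s 2) :
    ∑ i, J (A i 1) (s i) y * J (A i 2) (s i) z * s i = 1 :=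
  int2 _ (fun i => A i 0) s (fun i => (hs i).le) (fun i => inside hs hU i 0) 1 _ (faces_finite A s 0)
    fun _ hx gx => L0 hU hD hx hy hz gx gy gz

theorem L2 (hs : ∀ i, 0 < s i) (hU : (⋃ i, cube3 (A i) (s i)) = cube3 0 1)
    (hD : ∀ i j, i ≠ j → Disjoint (interior (cube3 (A i) (s i))) (interior (cube3 (A j) (s j))))
    {z : ℝ} (hz : z ∈ Ioo (0 : ℝ) 1) (gz : z ∉ faces A s 2) :
    ∑ i, (J (A i 2) (s i) z * s i) * s i = 1 := by
  refine int2 (fun i => J (A i 2) (s i) z * s i) (fun i => A i 1) s (fun i => (hs i).le)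
    (fun i => inside hs hU i 1) 1 _ (faces_finite A s 1) fun y hy gy => ?_
  rw [← L1 hs hU hD hy hz gy gz]
  exact Finset.sum_congr rfl fun i _ => by ring

theorem L3 (hs : ∀ i, 0 < s i) (hU : (⋃ i, cube3 (A i) (s i)) = cube3 0 1)
    (hD : ∀ i j, i ≠ j → Disjoint (interior (cube3 (A i) (s i))) (interior (cube3 (A j) (s j)))) :
    ∑ i, s i ^ 3 = 1 := by
  have h := int2 (fun i => s i * s i) (fun i => A i 2) s (fun i => (hs i).le)
    (fun i => inside hs hU i 2) 1 _ (faces_finite A s 2) fun z hz gz => by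
      rw [← L2 hs hU hD hz gz]
      exact Finset.sum_congr rfl fun i _ => by ring
  rw [← h]
  exact Finset.sum_congr rfl fun i _ => by ring

/-- weights depending on the tile only: if the weighted number of the tiles over a generic point is constant then it is the
weighted sum of the squares -/
theorem W (hs : ∀ i, 0 < s i) (hU : (⋃ i, cube3 (A i) (s i)) = cube3 0 1) (e : Fin n → ℝ) (C : ℝ)
    (h : ∀ y ∈ Ioo (0 : ℝ) 1, ∀ z ∈ Ioo (0 : ℝ) 1, y ∉ faces A s 1 → z ∉ faces A s 2 →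
      ∑ i, e i * (J (A i 1) (s i) y * J (A i 2) (s i) z) = C) : ∑ i, e i * s i ^ 2 = C := by
  have h1 := int2 (fun i => e i * s i) (fun i => A i 2) s (fun i => (hs i).le)
    (fun i => inside hs hU i 2) C _ (faces_finite A s 2) fun z hz gz => by
      have h2 := int2 (fun i => e i * J (A i 2) (s i) z) (fun i => A i 1) s (fun i => (hs i).le)
        (fun i => inside hs hU i 1) C _ (faces_finite A s 1) fun y hy gy => by
          rw [← h y hy z hz gy gz]
          exact Finset.sum_congr rfl fun i _ => by ring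
      rw [← h2]
      exact Finset.sum_congr rfl fun i _ => by ring
  rw [← h1]
  exact Finset.sum_congr rfl fun i _ => by ring

theorem generic (F : Set ℝ) (hF : F.Finite) : ∃ y ∈ Ioo (0 : ℝ) 1, y ∉ F := by
  obtain ⟨y, hy⟩ := ((Ioo_infinite (one_pos : (0 : ℝ) < 1)).sdiff hF).nonempty
  exact ⟨y, hy.1, hy.2⟩

theorem arith {a b m k T : ℕ} (hab : Nat.Coprime a b) (h : k * b ^ 3 + m * a ^ 3 = T ^ 3) :
    ∃ y : ℤ, ((a : ℤ) ^ 3 - b ^ 3) ∣ y ^ 3 - ((k + m : ℕ) : ℤ) := by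
  have hc : IsCoprime ((a : ℤ) ^ 3 - b ^ 3) (b : ℤ) := by
    have h1 : IsCoprime ((a : ℤ) ^ 3) (b : ℤ) := (Nat.isCoprime_iff_coprime.2 hab).pow_left
    obtain ⟨u, v, huv⟩ := h1
    exact ⟨u, v + u * b ^ 2, by linear_combination huv⟩
  obtain ⟨u, v, huv⟩ := hc
  refine ⟨T * v, ?_⟩
  have h2 : (k : ℤ) * b ^ 3 + m * a ^ 3 = (T : ℤ) ^ 3 := by exact_mod_cast h
  have h3 : v * b = 1 - u * ((a : ℤ) ^ 3 - b ^ 3) := by linear_combination huv
  have h4 : ((a : ℤ) ^ 3 - b ^ 3) ∣ (v * b) ^ 3 - 1 := by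
    rw [h3]
    refine ⟨-(u * (1 + (1 - u * ((a : ℤ) ^ 3 - b ^ 3)) + (1 - u * ((a : ℤ) ^ 3 - b ^ 3)) ^ 2)), ?_⟩
    ring
  obtain ⟨w, hw⟩ := h4
  refine ⟨((k : ℤ) + m) * w + m * v ^ 3, ?_⟩
  push_cast
  linear_combination (-v ^ 3) * h2 + ((k : ℤ) + m) * hw

theorem natsum_le {n : ℕ} (c : Fin n → ℝ) (hc : ∀ i, c i = 0 ∨ c i = 1) {m : ℕ}
    (h : ∑ i, c i = m) : m ≤ n := by
  have h1 : (m : ℝ) ≤ n := by
    rw [← h]
    refine (Finset.sum_le_card_nsmul _ _ 1 fun i _ => ?_).trans ?_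
    · rcases hc i with h | h <;> rw [h]
      norm_num
    · rw [Finset.card_univ, Fintype.card_fin, nsmul_eq_mul, mul_one]
  exact_mod_cast h1

/-- the same numbers `p`, `q` of small and of large tiles on all lines: then `a ^ 2` is at most the number of the tiles -/
theorem bound {a b p q m k : ℕ} (ha : 0 < a) (hb : 0 < b) (hcop : Nat.Coprime a b)
    (h1 : k * b ^ 2 = p * (p * b + q * a) ^ 2) (h2 : m * a ^ 2 = q * (p * b + q * a) ^ 2)
    (hk : 0 < k) (hm : 0 < m) : a ^ 2 ≤ k + m := by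
  set T := p * b + q * a with hT
  have hp : 0 < p := by
    rcases Nat.eq_zero_or_pos p with h | h
    · rw [h, zero_mul] at h1
      exact absurd h1 (by positivity)
    · exact h
  have hq : 0 < q := by
    rcases Nat.eq_zero_or_pos q with h | h
    · rw [h, zero_mul] at h2
      exact absurd h2 (by positivity)
    · exact h
  have h3 : p ^ 3 ≤ k := by
    refine Nat.le_of_mul_le_mul_right (c := b ^ 2) ?_ (by positivity)
    rw [h1]
    calc p ^ 3 * b ^ 2 = p * (p * b) ^ 2 := by ring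
      _ ≤ p * T ^ 2 := Nat.mul_le_mul_left _ (Nat.pow_le_pow_left (by omega) 2)
  have h4 : q ^ 3 ≤ m := by
    refine Nat.le_of_mul_le_mul_right (c := a ^ 2) ?_ (by positivity)
    rw [h2]
    calc q ^ 3 * a ^ 2 = q * (q * a) ^ 2 := by ring
      _ ≤ q * T ^ 2 := Nat.mul_le_mul_left _ (Nat.pow_le_pow_left (by omega) 2)
  obtain ⟨g, a', T', hg, hco, ha', hT'⟩ := Nat.exists_coprime' (m := a) (n := T)
    (Nat.gcd_pos_of_pos_left _ ha)
  have hdvd : a' ^ 2 ∣ q := by
    have h5 : a' ^ 2 * g ^ 2 ∣ (q * T' ^ 2) * g ^ 2 := by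
      refine ⟨m, ?_⟩
      calc q * T' ^ 2 * g ^ 2 = q * (T' * g) ^ 2 := by ring
        _ = m * a ^ 2 := by rw [← hT', h2]
        _ = a' ^ 2 * g ^ 2 * m := by rw [ha']; ring
    have h6 : a' ^ 2 ∣ q * T' ^ 2 := Nat.dvd_of_mul_dvd_mul_right (by positivity) h5
    exact (Nat.Coprime.pow 2 2 hco).dvd_of_dvd_mul_right h6
  have hgp : g ∣ p := by
    have h5 : g ∣ T := ⟨T', by rw [hT']; ring⟩
    have h6 : g ∣ a := ⟨a', by rw [ha']; ring⟩
    have h7 : g ∣ p * b := (Nat.dvd_add_left (h6.mul_left q)).1 h5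
    exact (Nat.Coprime.coprime_dvd_left h6 hcop).dvd_of_dvd_mul_right h7
  have h8 : a' ^ 2 ≤ q := Nat.le_of_dvd hq hdvd
  have h9 : g ≤ p := Nat.le_of_dvd hp hgp
  have h10 : a ^ 2 ≤ p ^ 2 * q := by
    calc a ^ 2 = g ^ 2 * a' ^ 2 := by rw [ha']; ring
      _ ≤ p ^ 2 * q := Nat.mul_le_mul (Nat.pow_le_pow_left h9 2) h8
  have h11 : p ^ 2 * q ≤ p ^ 3 + q ^ 3 := by
    rcases le_total p q with h | h
    · calc p ^ 2 * q ≤ q ^ 2 * q := Nat.mul_le_mul_right _ (Nat.pow_le_pow_left h 2)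
        _ = q ^ 3 := by ring
        _ ≤ _ := Nat.le_add_left _ _
    · calc p ^ 2 * q ≤ p ^ 2 * p := Nat.mul_le_mul_left _ h
        _ = p ^ 3 := by ring
        _ ≤ _ := Nat.le_add_right _ _
  omega

end Pool.Agent.H43.TT
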