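import Pool.Agent.H43.TT.Nec

/-!
# The necessary condition
-/

set_option autoImplicit false

namespace Pool.Agent.H43.TT

open Pool.H67.TC MeasureTheory Set

theorem nec {n : ℕ} {s₁ s₂ : ℝ} (h : Tiles n s₁ s₂) : (∃ N : ℕ, n = N ^ 3) ∨
    ∃ a b : ℕ, 1 ≤ b ∧ b < a ∧ a ≤ n ∧ Nat.Coprime a b ∧ (s₁ * a = s₂ * b ∨ s₂ * a = s₁ * b) ∧
      ∃ y : ℤ, ((a : ℤ) ^ 3 - b ^ 3) ∣ y ^ 3 - n := by
  classical
  obtain ⟨hp1, -, hp2, -, A, s, hs, hU, hD⟩ := h
  have hpos : ∀ i, 0 < s i := fun i => by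
    rcases hs i with h | h
    · rw [h]; exact hp1
    · rw [h]; exact hp2
  obtain ⟨y0, hy0, gy0⟩ := generic _ (faces_finite A s 1)
  obtain ⟨z0, hz0, gz0⟩ := generic _ (faces_finite A s 2)
  have hJJ : ∀ (i : Fin n) (y z : ℝ), J (A i 1) (s i) y * J (A i 2) (s i) z = 0 ∨
      J (A i 1) (s i) y * J (A i 2) (s i) z = 1 := by
    intro i y z
    rcases J_01 (A i 1) (s i) y with h | h
    · left
      rw [h, zero_mul]
    · rw [h, one_mul]
      exact J_01 _ _ _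
  have h3 := L3 hpos hU hD
  -- one size only
  have one : ∀ σ : ℝ, (∀ i, s i = σ) → ∃ N : ℕ, n = N ^ 3 := by
    intro σ hσ
    obtain ⟨m, hm⟩ := natsum (fun i => J (A i 1) (s i) y0 * J (A i 2) (s i) z0) fun i => hJJ i _ _
    have h1 := L1 hpos hU hD hy0 hz0 gy0 gz0
    have h1' : (m : ℝ) * σ = 1 := by
      rw [← h1, ← hm, Finset.sum_mul]
      exact Finset.sum_congr rfl fun i _ => by rw [hσ i]
    have h3' : (n : ℝ) * σ ^ 3 = 1 := by
      rw [← h3, Finset.sum_congr rfl fun i _ => by rw [hσ i], Finset.sum_const, Finset.card_univ,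
        Fintype.card_fin, nsmul_eq_mul]
    refine ⟨m, ?_⟩
    have h4 : (n : ℝ) = (m : ℝ) ^ 3 := by
      calc (n : ℝ) = n * ((m : ℝ) * σ) ^ 3 := by rw [h1']; ring
        _ = (n * σ ^ 3) * (m : ℝ) ^ 3 := by ring
        _ = (m : ℝ) ^ 3 := by rw [h3', one_mul]
    exact_mod_cast h4
  by_cases h12 : s₁ = s₂
  · left
    refine one s₁ fun i => ?_
    rcases hs i with h | h
    · exact h
    · rw [h, h12]
  by_cases hall1 : ∀ i, s i = s₁
  · exact Or.inl (one s₁ hall1)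
  by_cases hall2 : ∀ i, s i = s₂
  · exact Or.inl (one s₂ hall2)
  right
  push Not at hall1 hall2
  obtain ⟨i2, hi2⟩ := hall1
  obtain ⟨i1, hi1⟩ := hall2
  -- the two kinds
  set e : Fin n → ℝ := fun i => if s i = s₁ then 1 else 0 with he
  set f : Fin n → ℝ := fun i => if s i = s₁ then 0 else 1 with hf
  have hef : ∀ i, e i + f i = 1 := by
    intro i
    simp only [he, hf]
    split_ifs <;> norm_num
  have hse : ∀ i, e i * s i ^ 2 = e i * s₁ ^ 2 ∧ f i * s i ^ 2 = f i * s₂ ^ 2 ∧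
      s i = e i * s₁ + f i * s₂ ∧ s i ^ 3 = e i * s₁ ^ 3 + f i * s₂ ^ 3 := by
    intro i
    simp only [he, hf]
    split_ifs with h
    · rw [h]
      refine ⟨rfl, ?_, ?_, ?_⟩ <;> ring
    · rw [(hs i).resolve_left h]
      refine ⟨?_, rfl, ?_, ?_⟩ <;> ring
  have he01 : ∀ i, e i = 0 ∨ e i = 1 := by
    intro i
    simp only [he]
    split_ifs
    · exact Or.inr rfl
    · exact Or.inl rfl
  have hf01 : ∀ i, f i = 0 ∨ f i = 1 := by
    intro i
    simp only [hf]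
    split_ifs
    · exact Or.inl rfl
    · exact Or.inr rfl
  obtain ⟨n1, hn1⟩ := natsum e he01
  obtain ⟨n2, hn2⟩ := natsum f hf01
  have hn12 : n1 + n2 = n := by
    have h4 : (n1 : ℝ) + n2 = n := by
      rw [← hn1, ← hn2, ← Finset.sum_add_distrib, Finset.sum_congr rfl fun i _ => hef i,
        Finset.sum_const, Finset.card_univ, Fintype.card_fin, nsmul_eq_mul, mul_one]
    exact_mod_cast h4
  have hn1p : (0 : ℝ) < n1 := by
    rw [← hn1]
    refine Finset.sum_pos' (fun i _ => by rcases he01 i with h | h <;> rw [h]; norm_num)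
      ⟨i1, Finset.mem_univ _, ?_⟩
    simp only [he]
    rw [if_pos ((hs i1).resolve_right hi1)]
    norm_num
  have hn2p : (0 : ℝ) < n2 := by
    rw [← hn2]
    refine Finset.sum_pos' (fun i _ => by rcases hf01 i with h | h <;> rw [h]; norm_num)
      ⟨i2, Finset.mem_univ _, ?_⟩
    simp only [hf]
    rw [if_neg hi2]
    norm_num
  have hvol : (n1 : ℝ) * s₁ ^ 3 + n2 * s₂ ^ 3 = 1 := by
    rw [← h3, Finset.sum_congr rfl fun i _ => (hse i).2.2.2, Finset.sum_add_distrib,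
      ← Finset.sum_mul, ← Finset.sum_mul, hn1, hn2]
  -- the numbers over a generic point
  have hline : ∀ y ∈ Ioo (0 : ℝ) 1, ∀ z ∈ Ioo (0 : ℝ) 1, y ∉ faces A s 1 → z ∉ faces A s 2 →
      ∃ m1 m2 : ℕ, ∑ i, e i * (J (A i 1) (s i) y * J (A i 2) (s i) z) = m1 ∧
        ∑ i, f i * (J (A i 1) (s i) y * J (A i 2) (s i) z) = m2 ∧ (m1 : ℝ) * s₁ + m2 * s₂ = 1 ∧
        m1 ≤ n ∧ m2 ≤ n := by
    intro y hy z hz gy gz
    have a1 : ∀ i, e i * (J (A i 1) (s i) y * J (A i 2) (s i) z) = 0 ∨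
        e i * (J (A i 1) (s i) y * J (A i 2) (s i) z) = 1 := fun i => by
      rcases he01 i with h | h
      · left
        rw [h, zero_mul]
      · rw [h, one_mul]
        exact hJJ i y z
    have a2 : ∀ i, f i * (J (A i 1) (s i) y * J (A i 2) (s i) z) = 0 ∨
        f i * (J (A i 1) (s i) y * J (A i 2) (s i) z) = 1 := fun i => by
      rcases hf01 i with h | h
      · left
        rw [h, zero_mul]
      · rw [h, one_mul]
        exact hJJ i y z
    obtain ⟨m1, hm1⟩ := natsum _ a1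
    obtain ⟨m2, hm2⟩ := natsum _ a2
    refine ⟨m1, m2, hm1, hm2, ?_, natsum_le _ a1 hm1, natsum_le _ a2 hm2⟩
    rw [← hm1, ← hm2, Finset.sum_mul, Finset.sum_mul, ← Finset.sum_add_distrib,
      ← L1 hpos hU hD hy hz gy gz]
    refine Finset.sum_congr rfl fun i _ => ?_
    have h5 := (hse i).2.2.1
    calc _ = J (A i 1) (s i) y * J (A i 2) (s i) z * (e i * s₁ + f i * s₂) := by ring
      _ = _ := by rw [← h5]
  obtain ⟨m1, m2, hm1, hm2, hm, hm1n, hm2n⟩ := hline y0 hy0 z0 hz0 gy0 gz0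
  -- if the numbers are the same over all generic points
  have same : (∀ k1 k2 : ℕ, k1 ≤ n → k2 ≤ n → (k1 : ℝ) * s₁ + k2 * s₂ = 1 → k1 = m1 ∧ k2 = m2) →
      (n1 : ℝ) * s₁ ^ 2 = m1 ∧ (n2 : ℝ) * s₂ ^ 2 = m2 := by
    intro huni
    have hE := W hpos hU e m1 fun y hy z hz gy gz => by
      obtain ⟨k1, k2, h5, h6, h7, h8, h9⟩ := hline y hy z hz gy gz
      rw [h5, (huni k1 k2 h8 h9 h7).1]
    have hF := W hpos hU f m2 fun y hy z hz gy gz => by
      obtain ⟨k1, k2, h5, h6, h7, h8, h9⟩ := hline y hy z hz gy gz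
      rw [h6, (huni k1 k2 h8 h9 h7).2]
    constructor
    · rw [← hE, Finset.sum_congr rfl fun i _ => (hse i).1, ← Finset.sum_mul, hn1]
    · rw [← hF, Finset.sum_congr rfl fun i _ => (hse i).2.1, ← Finset.sum_mul, hn2]
  -- the quotient is rational
  have hrat : ∃ q : ℚ, s₁ / s₂ = q := by
    by_contra hirr
    push Not at hirr
    have huni : ∀ k1 k2 : ℕ, (k1 : ℝ) * s₁ + k2 * s₂ = 1 → k1 = m1 ∧ k2 = m2 := by
      intro k1 k2 hk
      have h5 : ((k1 : ℝ) - m1) * s₁ = (m2 - k2) * s₂ := by linarith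
      have h6 : k1 = m1 := by
        by_contra hne
        have h7 : (k1 : ℝ) - m1 ≠ 0 := by
          intro h8
          exact hne (by exact_mod_cast sub_eq_zero.1 h8)
        refine hirr (((m2 : ℚ) - k2) / (k1 - m1)) ?_
        push_cast
        rw [div_eq_div_iff hp2.ne' h7]
        linarith
      refine ⟨h6, ?_⟩
      rw [h6, sub_self, zero_mul] at h5
      have h8 : (m2 : ℝ) - k2 = 0 := by
        rcases mul_eq_zero.1 h5.symm with h | h
        · exact h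
        · exact absurd h hp2.ne'
      exact_mod_cast (sub_eq_zero.1 h8).symm
    obtain ⟨hE', hF'⟩ := same fun k1 k2 _ _ hk => huni k1 k2 hk
    have hm1p : (0 : ℝ) < m1 := by
      rw [← hE']
      positivity
    have hm2p : (0 : ℝ) < m2 := by
      rw [← hF']
      positivity
    refine hirr ((1 - (m1 : ℚ) ^ 3 / n1 - (m2 : ℚ) ^ 3 / n2) / (2 * m1 * m2) * (n2 / m2)) ?_
    push_cast
    have e1 : s₁ ^ 2 = m1 / n1 := by rw [← hE']; field_simp
    have e2 : s₂ ^ 2 = m2 / n2 := by rw [← hF']; field_simp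
    have e3 : s₁ * s₂ = (1 - (m1 : ℝ) ^ 3 / n1 - (m2 : ℝ) ^ 3 / n2) / (2 * m1 * m2) := by
      rw [eq_div_iff (by positivity)]
      have e4 : (m1 : ℝ) ^ 3 / n1 = m1 ^ 2 * s₁ ^ 2 := by rw [e1]; ring
      have e5 : (m2 : ℝ) ^ 3 / n2 = m2 ^ 2 * s₂ ^ 2 := by rw [e2]; ring
      rw [e4, e5]
      have e6 : ((m1 : ℝ) * s₁ + m2 * s₂) ^ 2 = 1 := by rw [hm]; norm_num
      linear_combination e6
    rw [← e3]
    have e7 : (n2 : ℝ) / m2 = 1 / s₂ ^ 2 := by rw [e2]; field_simp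
    rw [e7]
    field_simp
  obtain ⟨q, hq⟩ := hrat
  have hq0 : 0 < q := by
    have : (0 : ℝ) < q := by
      rw [← hq]
      positivity
    exact_mod_cast this
  -- numerator and denominator
  set P : ℕ := q.num.natAbs with hP
  set D : ℕ := q.den with hDdef
  have hcop : Nat.Coprime P D := q.reduced
  have hnum : (q.num : ℤ) = P := (Int.natAbs_of_nonneg (Rat.num_nonneg.2 hq0.le)).symm
  have hDpos : (0 : ℝ) < D := by exact_mod_cast q.den_pos
  have hqPD : (q : ℝ) = P / D := by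
    have h5 : (q : ℝ) = ((q.num : ℤ) : ℝ) / (q.den : ℝ) := by
      rw [Rat.cast_def]
    rw [h5, hnum]
    simp [hDdef]
  have hPpos : (0 : ℝ) < P := by
    have h6 : (0 : ℝ) < (q : ℝ) := by exact_mod_cast hq0
    rw [hqPD] at h6
    by_contra hcon
    have h7 : (P : ℝ) = 0 := le_antisymm (not_lt.1 hcon) (Nat.cast_nonneg _)
    rw [h7, zero_div] at h6
    exact lt_irrefl _ h6
  have hrel : s₁ * D = s₂ * P := by
    have h6 : s₁ / s₂ = P / D := by rw [hq, hqPD]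
    rw [div_eq_div_iff hp2.ne' hDpos.ne'] at h6
    linarith
  have hne : P ≠ D := by
    intro h6
    rw [h6] at hrel
    exact h12 (mul_right_cancel₀ hDpos.ne' hrel)
  set T : ℕ := m1 * P + m2 * D with hT
  set u : ℝ := s₁ / P with hu
  have hs1 : s₁ = P * u := by rw [hu]; field_simp
  have hs2 : s₂ = D * u := by
    rw [hu]
    field_simp
    linarith
  have hTu : (T : ℝ) * u = 1 := by
    rw [← hm, hs1, hs2, hT]
    push_cast
    ring
  have hu0 : u ≠ 0 := by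
    intro h6
    rw [h6, mul_zero] at hTu
    exact zero_ne_one hTu
  have hcub : n1 * P ^ 3 + n2 * D ^ 3 = T ^ 3 := by
    have h6 : ((n1 : ℝ) * P ^ 3 + n2 * D ^ 3) * u ^ 3 = (T : ℝ) ^ 3 * u ^ 3 := by
      have h7 : (T : ℝ) ^ 3 * u ^ 3 = 1 := by rw [← mul_pow, hTu, one_pow]
      rw [h7, ← hvol, hs1, hs2]
      ring
    have h8 := mul_right_cancel₀ (pow_ne_zero 3 hu0) h6
    exact_mod_cast h8
  have hP1 : 1 ≤ P := by
    have : 0 < P := by exact_mod_cast hPpos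
    omega
  have hD1 : 1 ≤ D := q.den_pos
  -- the larger of the two numbers is at most `n`
  have hTk : ∀ k1 k2 : ℕ, (k1 : ℝ) * s₁ + k2 * s₂ = 1 → k1 * P + k2 * D = T := by
    intro k1 k2 hk
    have h6 : ((k1 : ℝ) * P + k2 * D) * u = (T : ℝ) * u := by
      rw [hTu, ← hk, hs1, hs2]
      ring
    have h7 := mul_right_cancel₀ hu0 h6
    exact_mod_cast h7
  have hn1' : 0 < n1 := by exact_mod_cast hn1p
  have hn2' : 0 < n2 := by exact_mod_cast hn2p
  have hsq : (∀ k1 k2 : ℕ, k1 ≤ n → k2 ≤ n → (k1 : ℝ) * s₁ + k2 * s₂ = 1 → k1 = m1 ∧ k2 = m2) →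
      n1 * P ^ 2 = m1 * T ^ 2 ∧ n2 * D ^ 2 = m2 * T ^ 2 := by
    intro h6
    obtain ⟨h7, h8⟩ := same h6
    have hT2 : (T : ℝ) ^ 2 * u ^ 2 = 1 := by rw [← mul_pow, hTu, one_pow]
    constructor
    · have h9 : ((n1 : ℝ) * P ^ 2) * u ^ 2 = ((m1 : ℝ) * T ^ 2) * u ^ 2 := by
        rw [mul_assoc (m1 : ℝ), hT2, mul_one, ← h7, hs1]
        ring
      have h10 := mul_right_cancel₀ (pow_ne_zero 2 hu0) h9
      exact_mod_cast h10
    · have h9 : ((n2 : ℝ) * D ^ 2) * u ^ 2 = ((m2 : ℝ) * T ^ 2) * u ^ 2 := by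
        rw [mul_assoc (m2 : ℝ), hT2, mul_one, ← h8, hs2]
        ring
      have h10 := mul_right_cancel₀ (pow_ne_zero 2 hu0) h9
      exact_mod_cast h10
  have close : ∀ {x y c : ℕ}, x ≤ n → y ≤ n → n < c → ((c : ℤ) ∣ (x : ℤ) - y) → x = y := by
    intro x y c hx hy hc hdv
    have h7 := Int.eq_zero_of_abs_lt_dvd hdv (abs_lt.2 ⟨by omega, by omega⟩)
    omega
  have hDn : D ≤ n := by
    by_contra hcon
    push Not at hcon
    have h6 := hsq fun k1 k2 hk1 hk2 hk => by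
      have h7 := hTk k1 k2 hk
      have h8 : (k1 : ℤ) * P + k2 * D = m1 * P + m2 * D := by
        have : ((k1 * P + k2 * D : ℕ) : ℤ) = ((m1 * P + m2 * D : ℕ) : ℤ) := by rw [h7]
        push_cast at this
        exact this
      have h9 : (D : ℤ) ∣ ((k1 : ℤ) - m1) * P := ⟨m2 - k2, by linear_combination h8⟩
      have h10 : (D : ℤ) ∣ (k1 : ℤ) - m1 :=
        (Nat.isCoprime_iff_coprime.2 hcop.symm).dvd_of_dvd_mul_right h9
      have h11 : k1 = m1 := close hk1 hm1n hcon h10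
      refine ⟨h11, ?_⟩
      rw [h11] at h7
      have h12 : k2 * D = m2 * D := by omega
      exact Nat.eq_of_mul_eq_mul_right hD1 h12
    have h7 := bound (a := D) (b := P) hD1 hP1 hcop.symm h6.1 h6.2 hn1' hn2'
    have h8 : D ≤ D ^ 2 := Nat.le_self_pow (by norm_num) D
    omega
  have hPn : P ≤ n := by
    by_contra hcon
    push Not at hcon
    have h6 := hsq fun k1 k2 hk1 hk2 hk => by
      have h7 := hTk k1 k2 hk
      have h8 : (k1 : ℤ) * P + k2 * D = m1 * P + m2 * D := by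
        have : ((k1 * P + k2 * D : ℕ) : ℤ) = ((m1 * P + m2 * D : ℕ) : ℤ) := by rw [h7]
        push_cast at this
        exact this
      have h9 : (P : ℤ) ∣ ((k2 : ℤ) - m2) * D := ⟨m1 - k1, by linear_combination h8⟩
      have h10 : (P : ℤ) ∣ (k2 : ℤ) - m2 :=
        (Nat.isCoprime_iff_coprime.2 hcop).dvd_of_dvd_mul_right h9
      have h11 : k2 = m2 := close hk2 hm2n hcon h10
      refine ⟨?_, h11⟩
      rw [h11] at h7
      have h12 : k1 * P = m1 * P := by omega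
      exact Nat.eq_of_mul_eq_mul_right hP1 h12
    have h7 := bound (a := P) (b := D) (p := m2) (q := m1) hP1 hD1 hcop
      (by rw [h6.2, hT, add_comm]) (by rw [h6.1, hT, add_comm]) hn2' hn1'
    have h8 : P ≤ P ^ 2 := Nat.le_self_pow (by norm_num) P
    omega
  rcases lt_or_gt_of_ne hne with hlt | hgt
  · refine ⟨D, P, hP1, hlt, hDn, hcop.symm, Or.inl hrel, ?_⟩
    obtain ⟨y, hy⟩ := arith hcop.symm hcub
    rw [hn12] at hy
    exact ⟨y, hy⟩
  · refine ⟨P, D, hD1, hgt, hPn, hcop, Or.inr hrel.symm, ?_⟩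
    obtain ⟨y, hy⟩ := arith (k := n2) (m := n1) hcop (by omega : n2 * D ^ 3 + n1 * P ^ 3 = T ^ 3)
    rw [add_comm, hn12] at hy
    exact ⟨y, hy⟩

end Pool.Agent.H43.TT
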