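import Pool.Agent.H43.TT.Rat

/-!
# A residue class without tilings of small quotient
-/

set_option autoImplicit false

namespace Pool.Agent.H43.TT

theorem nine {a b : ℕ} (h : Nat.Coprime a b) : ¬ 9 ∣ a ^ 2 + a * b + b ^ 2 := by
  intro h9
  have key : ∀ x y : ZMod 9, x ^ 2 + x * y + y ^ 2 = 0 → 3 * x = 0 ∧ 3 * y = 0 := by decide
  have h1 : ((a : ZMod 9)) ^ 2 + a * b + (b : ZMod 9) ^ 2 = 0 := by
    have := (ZMod.natCast_eq_zero_iff (a ^ 2 + a * b + b ^ 2) 9).2 h9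
    push_cast at this
    exact this
  obtain ⟨h2, h3⟩ := key _ _ h1
  have h4 : 9 ∣ 3 * a := by
    rw [← ZMod.natCast_eq_zero_iff]
    push_cast
    exact h2
  have h5 : 9 ∣ 3 * b := by
    rw [← ZMod.natCast_eq_zero_iff]
    push_cast
    exact h3
  have h6 : 3 ∣ Nat.gcd a b := Nat.dvd_gcd (by omega) (by omega)
  rw [h] at h6
  omega

theorem pfac {a b : ℕ} (h : Nat.Coprime a b) (hb : 1 ≤ b) (hab : b < a) :
    ∃ l : ℕ, l.Prime ∧ l ≠ 3 ∧ l ∣ a ^ 2 + a * b + b ^ 2 := by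
  have h9 := nine h
  have h7 : 7 ≤ a ^ 2 + a * b + b ^ 2 := by nlinarith
  by_cases h3 : 3 ∣ a ^ 2 + a * b + b ^ 2
  · obtain ⟨M, hM⟩ := h3
    refine ⟨M.minFac, Nat.minFac_prime (by omega), ?_, ?_⟩
    · intro h4
      have h5 := M.minFac_dvd
      rw [h4] at h5
      obtain ⟨k, hk⟩ := h5
      exact h9 ⟨k, by rw [hM, hk]; ring⟩
    · rw [hM]
      exact (M.minFac_dvd).trans (Dvd.intro_left 3 rfl)
  · refine ⟨_, Nat.minFac_prime (n := a ^ 2 + a * b + b ^ 2) (by omega), ?_, Nat.minFac_dvd _⟩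
    intro h4
    have h5 := Nat.minFac_dvd (a ^ 2 + a * b + b ^ 2)
    rw [h4] at h5
    exact h3 h5

theorem nc {a b : ℕ} (h : Nat.Coprime a b) (hb : 1 ≤ b) (hab : b < a) :
    ∃ l : ℕ, l.Prime ∧ (l : ℤ) ∣ (a : ℤ) ^ 3 - b ^ 3 ∧ ∃ g : ℕ, ∀ y : ℤ, ¬ (l : ℤ) ∣ y ^ 3 - g := by
  obtain ⟨l, hl, hl3, hdvd⟩ := pfac h hb hab
  have : Fact l.Prime := ⟨hl⟩
  refine ⟨l, hl, ?_, ?_⟩
  · have h1 : (l : ℤ) ∣ ((a ^ 2 + a * b + b ^ 2 : ℕ) : ℤ) := by exact_mod_cast hdvd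
    have h2 : (a : ℤ) ^ 3 - b ^ 3 = ((a ^ 2 + a * b + b ^ 2 : ℕ) : ℤ) * (a - b) := by
      push_cast
      ring
    rw [h2]
    exact h1.mul_right _
  · have hN : (a : ZMod l) ^ 2 + a * b + (b : ZMod l) ^ 2 = 0 := by
      have := (ZMod.natCast_eq_zero_iff (a ^ 2 + a * b + b ^ 2) l).2 hdvd
      push_cast at this
      exact this
    have hb0 : (b : ZMod l) ≠ 0 := by
      intro h0
      rw [h0] at hN
      have ha0 : (a : ZMod l) = 0 := by
        have h1 : (a : ZMod l) ^ 2 = 0 := by linear_combination hN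
        exact pow_eq_zero_iff (two_ne_zero) |>.1 h1
      have h1 : l ∣ Nat.gcd a b :=
        Nat.dvd_gcd ((ZMod.natCast_eq_zero_iff _ _).1 ha0) ((ZMod.natCast_eq_zero_iff _ _).1 h0)
      rw [h] at h1
      exact hl.one_lt.ne' (Nat.dvd_one.1 h1)
    have hne : (a : ZMod l) / b ≠ 1 := by
      intro h1
      have h2 : (a : ZMod l) = b := by
        field_simp at h1
        exact h1
      rw [h2] at hN
      have h3 : (3 : ZMod l) * (b : ZMod l) ^ 2 = 0 := by linear_combination hN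
      rcases mul_eq_zero.1 h3 with h4 | h4
      · have h5 : ((3 : ℕ) : ZMod l) = 0 := by exact_mod_cast h4
        have h6 := (ZMod.natCast_eq_zero_iff 3 l).1 h5
        rcases (Nat.dvd_prime Nat.prime_three).1 h6 with h7 | h7
        · exact hl.one_lt.ne' h7
        · exact hl3 h7
      · exact hb0 (pow_eq_zero_iff two_ne_zero |>.1 h4)
    have hcube : ((a : ZMod l) / b) ^ 3 = 1 := by
      rw [div_pow, div_eq_one_iff_eq (pow_ne_zero 3 hb0)]
      linear_combination ((a : ZMod l) - b) * hN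
    have hninj : ¬ Function.Injective fun x : ZMod l => x ^ 3 := by
      intro hinj
      refine hne (hinj ?_)
      show ((a : ZMod l) / b) ^ 3 = 1 ^ 3
      rw [hcube, one_pow]
    have hnsurj : ¬ Function.Surjective fun x : ZMod l => x ^ 3 := fun hs =>
      hninj (Finite.injective_iff_surjective.2 hs)
    unfold Function.Surjective at hnsurj
    push Not at hnsurj
    obtain ⟨g, hg⟩ := hnsurj
    refine ⟨g.val, fun y hy => hg (y : ZMod l) ?_⟩
    have h1 := (ZMod.intCast_zmod_eq_zero_iff_dvd (y ^ 3 - (g.val : ℤ)) l).2 hy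
    push_cast at h1
    rw [ZMod.natCast_zmod_val] at h1
    exact sub_eq_zero.1 h1

theorem classes (A : ℕ) : ∃ q r : ℕ, 0 < q ∧ ∀ n : ℕ, n ≡ r [MOD q] → ∀ s₁ s₂ : ℝ, Tiles n s₁ s₂ →
    ∃ a b : ℕ, A < a ∧ 1 ≤ b ∧ b < a ∧ a ≤ n ∧ Nat.Coprime a b ∧
      (s₁ * a = s₂ * b ∨ s₂ * a = s₁ * b) := by
  classical
  set S : Finset (ℕ × ℕ) := ((Finset.range (A + 3)) ×ˢ (Finset.range (A + 3))).filter fun p =>
    1 ≤ p.2 ∧ p.2 < p.1 ∧ Nat.Coprime p.1 p.2 with hS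
  have hSm : ∀ p ∈ S, ∃ l : ℕ, l.Prime ∧ (l : ℤ) ∣ (p.1 : ℤ) ^ 3 - p.2 ^ 3 ∧
      ∃ g : ℕ, ∀ y : ℤ, ¬ (l : ℤ) ∣ y ^ 3 - g := by
    intro p hp
    obtain ⟨h1, h2, h3⟩ := (Finset.mem_filter.1 hp).2
    exact nc h3 h1 h2
  choose! L hL1 hL2 hL3 using hSm
  set g : ℕ → ℕ := fun l => if h : ∃ g : ℕ, ∀ y : ℤ, ¬ (l : ℤ) ∣ y ^ 3 - g then h.choose else 0 with hg
  set t : Finset ℕ := S.image L with ht
  have htp : ∀ l ∈ t, l.Prime := by
    intro l hl
    obtain ⟨p, hp, rfl⟩ := Finset.mem_image.1 hl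
    exact hL1 p hp
  obtain ⟨r, hr⟩ := Nat.chineseRemainderOfFinset g id t (fun l hl => (htp l hl).ne_zero)
    (fun l hl l' hl' hne => (Nat.coprime_primes (htp l hl) (htp l' hl')).2 hne)
  refine ⟨∏ l ∈ t, l, r, Finset.prod_pos fun l hl => (htp l hl).pos, fun n hn s₁ s₂ hT => ?_⟩
  have key : ∀ p ∈ S, ∀ y : ℤ, ¬ ((p.1 : ℤ) ^ 3 - p.2 ^ 3) ∣ y ^ 3 - n := by
    intro p hp y hy
    have h1 : (L p : ℤ) ∣ y ^ 3 - n := (hL2 p hp).trans hy
    have hmem : L p ∈ t := Finset.mem_image_of_mem L hp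
    have h2 : n ≡ g (L p) [MOD L p] := by
      have h3 : n ≡ r [MOD L p] := hn.of_dvd (Finset.dvd_prod_of_mem (fun l => l) hmem)
      exact h3.trans (hr _ hmem)
    have h4 : g (L p) = (hL3 p hp).choose := by
      simp only [hg]
      rw [dif_pos (hL3 p hp)]
    have h5 := (hL3 p hp).choose_spec y
    rw [← h4] at h5
    refine h5 ?_
    have h6 : (L p : ℤ) ∣ (n : ℤ) - g (L p) := by
      have h7 := (Nat.modEq_iff_dvd.1 h2.symm)
      exact h7
    have h8 : y ^ 3 - (g (L p) : ℤ) = (y ^ 3 - n) + (n - g (L p)) := by ring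
    rw [h8]
    exact dvd_add h1 h6
  rcases nec hT with ⟨N, hN⟩ | ⟨a, b, hb, hab, han, hc, hrel, y, hy⟩
  · exfalso
    refine key (2, 1) ?_ N ?_
    · rw [hS, Finset.mem_filter, Finset.mem_product, Finset.mem_range, Finset.mem_range]
      refine ⟨⟨?_, ?_⟩, le_rfl, ?_, ?_⟩
      · show 2 < A + 3
        omega
      · show 1 < A + 3
        omega
      · show 1 < 2
        omega
      · show Nat.Coprime 2 1
        exact Nat.coprime_one_right 2
    · rw [hN]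
      push_cast
      rw [sub_self]
      exact dvd_zero _
  · refine ⟨a, b, ?_, hb, hab, han, hc, hrel⟩
    by_contra hA
    refine key (a, b) ?_ y hy
    rw [hS, Finset.mem_filter, Finset.mem_product, Finset.mem_range, Finset.mem_range]
    refine ⟨⟨?_, ?_⟩, hb, hab, hc⟩
    · show a < A + 3
      omega
    · show b < A + 3
      omega

end Pool.Agent.H43.TT
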